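import Pool.Agent.Helper22.AM.Fin2
import Pool.Agent.Helper54.MM.Large
import Pool.Agent.Helper60.MM.M3b
import Pool.Agent.Helper44.MM.M2Z
import Pool.Agent.Helper92.MM.Small
import Pool.Agent.Helper11.AM.SumTail2
import Pool.Agent.Helper90.AM.DilLow
import Pool.Agent.Helper3.AM.MxMean
import Pool.Agent.Helper14.AM.Res
import Pool.Agent.Helper92.LW.Law
import Pool.Agent.Helper92.LW.Tools

/-!
# LW (MP_fb29e9_nt): the limit law for almost every oval, finite theorem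
-/

open MeasureTheory Real Set Filter Topology

set_option autoImplicit false

namespace Pool.Agent.Helper22.LW

open Pool.Agent.Helper22.AE
open Pool.Agent.Helper22.AC (cntc)
open Pool.Agent.Helper22.AM
open Pool.Agent.Helper92.LW (LimF)
open Pool.Agent.Helper93.EX (Mx)

/-- the majorants of all blocks -/
theorem allW {J : ℕ} (hJ : 3 ≤ J) : AllW J :=
  all_W_of
    (fun h => by
      obtain ⟨δ, C, h1, h2, h3, h4⟩ := Pool.Agent.Helper92.MMS.small_set' h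
      exact ⟨δ, h1, h2, fun hL _ h0 => ⟨C, h3, h4 hL h0⟩⟩)
    (fun hL _ h0 => Pool.Agent.Helper60.MM.large_set hL h0 (Pool.Agent.Helper54.MM.large_mean hL h0))
    (fun h1 h2 _ h0 _ hβ b hbc hb w R c => Pool.Agent.Helper44.MM.Z_pow h1 h2 h0 hβ b hbc hb w R c)
    (fun J M m n _ h0 b hb => Pool.Agent.Helper44.MM.Maj_cont J M m n h0 b hb)
    (fun J M m n => Pool.Agent.Helper44.MM.Maj_bdd J M m n) hJ

/-- from the sixth moment to the second -/
theorem second_of_sixth {E : ℝ → ℝ × ℝ → ℝ} {M : ℕ → ℝ → ℝ × ℝ → ℝ} (hm : ∀ n0 X c, 1 ≤ X → IntegrableOn (fun R => |E R c - M n0 R c| ^ 6) (Icc X (2 * X)))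
    (h6 : ∀ η : ℝ, 0 < η → ∃ (n0 : ℕ) (X₀ : ℝ), 1 ≤ X₀ ∧ ∀ X : ℝ, X₀ ≤ X → ∀ c : ℝ × ℝ,
      ∫ R in Icc X (2 * X), |E R c - M n0 R c| ^ 6 ≤ η * X ^ 4) :
    ∀ η : ℝ, 0 < η → ∃ (n0 : ℕ) (X₀ : ℝ), 1 ≤ X₀ ∧ ∀ X : ℝ, X₀ ≤ X → ∀ c : ℝ × ℝ,
      ∫ R in Icc X (2 * X), |E R c - M n0 R c| ^ 2 ≤ η * X ^ 2 := by
  intro η hη
  obtain ⟨d, hd⟩ : ∃ d : ℝ, d = η / 2 := ⟨_, rfl⟩
  have hd0 : 0 < d := by rw [hd]; positivity
  obtain ⟨n0, X₀, hX₀, h⟩ := h6 (d ^ 3) (by positivity)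
  refine ⟨n0, X₀, hX₀, fun X hX c => ?_⟩
  have hX1 : 1 ≤ X := hX₀.trans hX
  have hX0 : 0 < X := by linarith
  have hpt : ∀ y : ℝ, |y| ^ 2 ≤ d * X + |y| ^ 6 / (d * X) ^ 2 := by
    intro y
    have ha : 0 < d * X := by positivity
    by_cases h1 : |y| ^ 2 ≤ d * X
    · have : 0 ≤ |y| ^ 6 / (d * X) ^ 2 := by positivity
      linarith
    · push Not at h1
      have h2 : |y| ^ 2 ≤ |y| ^ 6 / (d * X) ^ 2 := by
        rw [le_div_iff₀ (by positivity)]
        have h3 : (d * X) ^ 2 ≤ (|y| ^ 2) ^ 2 := pow_le_pow_left₀ ha.le h1.le 2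
        calc |y| ^ 2 * (d * X) ^ 2 ≤ |y| ^ 2 * (|y| ^ 2) ^ 2 := mul_le_mul_of_nonneg_left h3 (by positivity)
          _ = |y| ^ 6 := by ring
      linarith
  have hI := hm n0 X c hX1
  have hconst : IntegrableOn (fun _ : ℝ => d * X) (Icc X (2 * X)) := by
    exact continuousOn_const.integrableOn_compact isCompact_Icc
  calc ∫ R in Icc X (2 * X), |E R c - M n0 R c| ^ 2
      ≤ ∫ R in Icc X (2 * X), (d * X + |E R c - M n0 R c| ^ 6 / (d * X) ^ 2) := by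
        refine integral_mono_of_nonneg (ae_of_all _ fun R => by positivity) (hconst.add (hI.div_const _)) (ae_of_all _ fun R => hpt _)
    _ = d * X * X + (∫ R in Icc X (2 * X), |E R c - M n0 R c| ^ 6) / (d * X) ^ 2 := by
        rw [integral_add hconst (hI.div_const _), integral_div]
        congr 1
        rw [setIntegral_const, Real.volume_real_Icc_of_le (by linarith), smul_eq_mul]
        ring
    _ ≤ d * X * X + (d ^ 3 * X ^ 4) / (d * X) ^ 2 := by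
        have h2 := h X hX c
        gcongr
    _ = η * X ^ 2 := by
        rw [hd]
        field_simp
        ring

/-- the finite theorem: the limit law -/
theorem fin_law : ∃ L₀ : ℕ, ∀ {L : ℕ}, L₀ ≤ L → ∀ {H₀ : ℝ → ℝ}, ContDiff ℝ 2 H₀ → Function.Periodic H₀ (2 * π) →
    ∀ᵐ w : (Fin L → ℝ) × (Fin L → ℝ), (∀ θ, 0 < Hw H₀ w θ + deriv (deriv (Hw H₀ w)) θ) →
      ∀ φ : ℝ → ℝ, Continuous φ → HasCompactSupport φ → LimF (Hw H₀ w) φ := by
  obtain ⟨L₀, h6, h⟩ := fin_of (allW (le_refl 3))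
  refine ⟨L₀, ?_⟩
  intro L hL H₀ h0 hp
  apply (vol_ac L).ae_le
  have h1 := h hL h0 hp (fun w => Res (Hw H₀ w) → ∀ φ : ℝ → ℝ, Continuous φ → HasCompactSupport φ → LimF (Hw H₀ w) φ)
    (fun h1 h2 h3 h4 h5 _ _ h6 b h7 h8 w h9 h10 _ h11 hr φ hφ hφc => by
      have ht := Pool.Agent.Helper11.AM.sum_tail2_of (fun hH _ _ a1 a2 a3 => Pool.Agent.Helper90.AM.dil_low hH a1 a2 a3)
        h0 hp (by norm_num : 1 ≤ 3) h1 h2 h3 h4 h5 h6 b h7 h8 w h9 h10 h11
      have hsm := Hw_smooth h0 w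
      have hper := Hw_per hp w
      refine Pool.Agent.Helper92.LW.law_of hsm hper ?_ (Pool.Agent.Helper3.AM.mx_mean hr) hφ hφc
      refine second_of_sixth (E := fun R c => cntc (Hw H₀ w) c R - area (Hw H₀ w) * R ^ 2)
        (M := fun n0 R c => sqrt R * Mx (Hw H₀ w) (2 ^ n0) R c) ?_ ?_
      · intro n0 X c hX
        have b1 := Pool.Agent.Helper92.LW.cntc_bm hsm.continuous hper c hX
        have b2 : Pool.Agent.Helper92.LW.BM X (fun R => area (Hw H₀ w) * R ^ 2) :=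
          Pool.Agent.Helper92.LW.BM.cont (by fun_prop)
        have b3 : Pool.Agent.Helper92.LW.BM X (fun R => sqrt R * Mx (Hw H₀ w) (2 ^ n0) R c) :=
          Pool.Agent.Helper92.LW.BM.cont ((Real.continuous_sqrt.mul (Pool.Agent.Helper92.LW.Mx_cont _ _ c)).continuousOn)
        exact (((b1.sub b2).sub b3).abs.pow 6).int
      · intro η hη
        obtain ⟨n0, X₀, hX₀, hh⟩ := ht η hη
        exact ⟨n0, X₀, hX₀, fun X hX c => hh X hX c⟩)
  filter_upwards [h1, Pool.Agent.Helper14.AM.res_ae (by omega : 2 ≤ L) H₀] with w hw hr hrho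
  exact hw hrho hr

end Pool.Agent.Helper22.LW
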